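import Pool.Agent.PSS.StmtsG
import Pool.Agent.Helper64_PFD.YAD
import Pool.Agent.Helper75_K9.LBR
import Pool.Agent.Helper35_K9.CHV

/-!
# Squad PSS, row QLN: the number of the modular characters in a quotient
-/

set_option autoImplicit false

open scoped BigOperators

noncomputable section

namespace Pool.Agent.PSS.H86

open Pool.Agent.Helper51_AWC Pool.Agent.Helper79_WRA Pool.Agent.PP Pool.Agent.PP.KF
open Pool.Agent.PP.K9 Pool.Agent.PP.K9.H97 Pool.Agent.PP.H75 Pool.Agent.PP.T3 Pool.Agent.PP.T2

theorem ln_zero {ℓ : ℕ} {F : Type} [Field F] (hF : GoodF ℓ F) {X : Type} [Group X] [Finite X] :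
    ln (0 : X → F) = 0 := by
  have h := H9.ncard_add hF H20.eig H20.ibf (H46.isIdem_zero (F := F) (H := X))
    H46.isIdem_zero (H46.mulF_zero 0)
  rw [add_zero] at h
  unfold ln
  omega

/-- the number of the modular characters of `N(Q)` in an idempotent of `A` -/
theorem ln_ind {ℓ : ℕ} {F : Type} [Field F] (hF : GoodF ℓ F) {A : Type} [Group A] [Finite A]
    {Q : Subgroup A} (hQ : IsPGroup ℓ Q) : ∀ f : A → F, IsIdem f →
    (∀ c : A → F, IsBlk c → mulF f c = c → ln c = lnum (Subgroup.normalizer (Q : Set A)) c) →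
    ln f = lnum (Subgroup.normalizer (Q : Set A)) f := by
  have : Fact ℓ.Prime := ⟨hF.prime⟩
  refine H46.idem_induction (fun f : A → F => (∀ c : A → F, IsBlk c → mulF f c = c →
    ln c = lnum (Subgroup.normalizer (Q : Set A)) c) →
    ln f = lnum (Subgroup.normalizer (Q : Set A)) f) ?_ ?_ ?_
  · intro _
    rw [ln_zero hF]
    exact (ln_zero hF (X := Subgroup.normalizer (Q : Set A))).symm
  · intro b hb h
    exact h b hb hb.1.2
  · intro e₁ e₂ h1 h2 h12 p1 p2 h
    have h21 : mulF e₂ e₁ = 0 := by rw [← H46.mulF_comm h1.1, h12]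
    have hd : ∀ f : A → F, mulF (e₁ + e₂) f = mulF e₁ f + mulF e₂ f := by
      intro f
      apply ma_injective
      rw [ma_mul, ma_add, ma_add, ma_mul, ma_mul, add_mul]
    have hz : ∀ f : A → F, mulF (0 : A → F) f = 0 := by
      intro f
      apply ma_injective
      rw [ma_mul, ma_zero, zero_mul]
    have k1 : ln (e₁ + e₂) = ln e₁ + ln e₂ := H9.ncard_add hF H20.eig H20.ibf h1 h2 h12
    have k2 := H9.lnum_add hF H20.nls H20.brm H20.eig H20.ibf hQ
      (Subgroup.le_normalizer (H := Q)) (Subgroup.centralizer_le_normalizer _) le_rfl h1 h2 h12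
    rw [k1, k2, p1, p2]
    · intro f hf hfe
      apply h f hf
      rw [hd, hfe]
      have : mulF e₁ f = 0 := by rw [← hfe, ← mulF_assoc, h12, hz]
      rw [this, zero_add]
    · intro f hf hfe
      apply h f hf
      rw [hd, hfe]
      have : mulF e₂ f = 0 := by rw [← hfe, ← mulF_assoc, h21, hz]
      rw [this, add_zero]

/-- QLN -/
theorem qln : QlnStmt := by
  intro ℓ _ F _ hF G A _ _ _ _ p hp V hV hk e he h
  have hkp : IsPGroup ℓ p.ker := hV.to_le hk
  have hQ : IsPGroup ℓ (V.map p : Subgroup A) := hV.map p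
  have h1 : lnum (⊤ : Subgroup A) (push p e) = ln e := by
    rw [← lnum_comap H20.nls hF hp hkp, Subgroup.comap_top, K9.H35.lnum_top]
    rfl
  have h2 : lnum (⊤ : Subgroup A) (push p e) = ln (push p e) := by
    rw [K9.H35.lnum_top]
    rfl
  have h3 : ln (push p e) = lnum (Subgroup.normalizer ((V.map p : Subgroup A) : Set A))
      (push p e) := by
    refine ln_ind hF hQ (push p e) (push_isIdem hp he) fun c hc hce => ?_
    rw [h c hc hce, (K9.H75.lbr ℓ F hF A c hc.1 (V.map p)
      (Subgroup.normalizer ((V.map p : Subgroup A) : Set A)) hQ Subgroup.le_normalizer le_rfl).1]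
    rfl
  have h4 : (Subgroup.normalizer ((V.map p : Subgroup A) : Set A)).comap p =
      Subgroup.normalizer (V : Set G) := by
    ext x
    rw [Subgroup.mem_comap, ← normalizer_comap hp, Subgroup.comap_map_eq_self hk]
  have h5 : lnum (Subgroup.normalizer (V : Set G)) e =
      ln (fun t : Subgroup.normalizer (V : Set G) => br V e t) := by
    rw [(K9.H75.lbr ℓ F hF G e he V (Subgroup.normalizer (V : Set G))
      hV Subgroup.le_normalizer le_rfl).1]
    rfl
  rw [← h1, h2, h3, ← lnum_comap H20.nls hF hp hkp, h4, h5]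

end Pool.Agent.PSS.H86
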