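import Pool.Agent.PSS.StmtsS1a

/-! # Squad PSS, row RTC (helper86): relative traces are central, change of the form -/

open scoped BigOperators

noncomputable section

namespace Pool.Agent.PSS.H86

open Pool.Agent.PSS

theorem rtc_two {k V A K K' : Type} [CommRing k] [CommGroup V] [Fintype V] [Ring A] [Algebra k A]
    [Fintype K] [Fintype K'] (α : V →* A) (lam : A →ₗ[k] k) (x y : K → A) (H : RF k α lam x y)
    (lam' : A →ₗ[k] k) (x' y' : K' → A) (u u' : A) (H' : RF k α lam' x' y')
    (hu : ∀ b, u * b = b * u) (huu : u * u' = 1) (hl : ∀ b, lam' b = lam (u * b))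
    (a : A) (ha : ∀ v, α v * a = a * α v) : u * rt x' y' a = rt x y a := by
  have key : ∀ t, ∑ j, ∑ v, lam (α v⁻¹ * y t * x' j) • (α v * y' j) = u' * y t := by
    intro t
    rw [← H'.e2 (u' * y t)]
    refine Finset.sum_congr rfl fun j _ => ?_
    refine Fintype.sum_equiv (Equiv.inv V) _ _ fun v => ?_
    have e1 : lam (α v⁻¹ * y t * x' j) = lam' (u' * y t * (x' j * α v⁻¹)) := by
      rw [hl]
      have e2 : u * (u' * y t * (x' j * α v⁻¹)) = y t * x' j * α v⁻¹ := by
        calc u * (u' * y t * (x' j * α v⁻¹)) = (u * u') * (y t * (x' j * α v⁻¹)) := by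
              simp only [mul_assoc]
          _ = y t * x' j * α v⁻¹ := by rw [huu, one_mul, mul_assoc]
      rw [e2, H.sym (y t * x' j) (α v⁻¹), mul_assoc]
    rw [e1, Equiv.inv_apply, inv_inv]
  have hx : ∀ j, x' j * a * y' j
      = ∑ t, ∑ v, x t * a * (lam (α v⁻¹ * y t * x' j) • (α v * y' j)) := by
    intro j
    calc x' j * a * y' j
        = (∑ t, ∑ v, lam (α v⁻¹ * y t * x' j) • (x t * α v)) * a * y' j := by rw [H.e1 (x' j)]
      _ = ∑ t, ∑ v, x t * a * (lam (α v⁻¹ * y t * x' j) • (α v * y' j)) := by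
        rw [Finset.sum_mul, Finset.sum_mul]
        refine Finset.sum_congr rfl fun t _ => ?_
        rw [Finset.sum_mul, Finset.sum_mul]
        refine Finset.sum_congr rfl fun v _ => ?_
        rw [smul_mul_assoc, smul_mul_assoc, mul_smul_comm]
        congr 1
        calc x t * α v * a * y' j = x t * (α v * a) * y' j := by simp only [mul_assoc]
          _ = x t * (a * α v) * y' j := by rw [ha v]
          _ = x t * a * (α v * y' j) := by simp only [mul_assoc]
  have h2 : rt x' y' a = ∑ t, x t * a * (u' * y t) := by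
    show ∑ j, x' j * a * y' j = _
    rw [Finset.sum_congr rfl fun j _ => hx j, Finset.sum_comm]
    refine Finset.sum_congr rfl fun t _ => ?_
    rw [← key t, Finset.mul_sum]
    refine Finset.sum_congr rfl fun j _ => ?_
    rw [Finset.mul_sum]
  rw [h2, Finset.mul_sum]
  show _ = ∑ t, x t * a * y t
  refine Finset.sum_congr rfl fun t _ => ?_
  calc u * (x t * a * (u' * y t)) = (u * (x t * a)) * (u' * y t) := by simp only [mul_assoc]
    _ = (x t * a) * (u * u') * y t := by rw [hu (x t * a)]; simp only [mul_assoc]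
    _ = x t * a * y t := by rw [huu, mul_one]

theorem rtc (hC : CsrStmt) : RtcStmt := by
  intro k V A K K' _ _ _ _ _ _ _ α lam x y H
  refine ⟨?_, fun lam' x' y' u u' H' hu huu hl a ha =>
    rtc_two α lam x y H lam' x' y' u u' H' hu huu hl a ha⟩
  intro a ha b
  let f : A →ₗ[k] A →ₗ[k] A := (LinearMap.mul k A).comp ((LinearMap.mul k A).flip a)
  have hf : ∀ c d, f c d = c * a * d := fun c d => rfl
  have h := hC k V A K A α lam x y H f (by
    intro c g d
    rw [hf, hf]
    calc c * α g * a * d = c * (α g * a) * d := by simp only [mul_assoc]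
      _ = c * (a * α g) * d := by rw [ha g]
      _ = c * a * (α g * d) := by simp only [mul_assoc]) b
  simp only [hf] at h
  show b * ∑ i, x i * a * y i = (∑ i, x i * a * y i) * b
  rw [Finset.mul_sum, Finset.sum_mul]
  calc ∑ i, b * (x i * a * y i) = ∑ i, b * x i * a * y i := by simp only [mul_assoc]
    _ = ∑ i, x i * a * (y i * b) := h
    _ = ∑ i, x i * a * y i * b := by simp only [mul_assoc]

end Pool.Agent.PSS.H86
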