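import Pool.Agent.PSS.StmtsBR

/-! PSS, row SGX: the graded algebra `S(A)` exists. -/

set_option autoImplicit false

open scoped BigOperators

noncomputable section

namespace Pool.Agent.PSS.H86

open Pool.Agent.PFE (SG Nt It Tr tj)

variable {F V V1 C A : Type} [Field F] [CommGroup V] [CommGroup V1] [Fintype V1]
  [CommGroup C] [Fintype C] [Ring A] [Algebra F A]

section

variable (twl : PFE.S.TwlStmt) (α : V →* A) (i : V1 →* V) (θ : C →* MulAut V1)

include twl

theorem N_mul {c d : C} {a b : A} (ha : a ∈ Nt F α i (θ c)) (hb : b ∈ Nt F α i (θ d)) :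
    a * b ∈ Nt F α i (θ (c * d)) := by
  have h := (twl.1 F V V1 A α i).2.1 (θ c) (θ d) a b ha hb
  rwa [← map_mul, mul_comm d c] at h

theorem N_one : (1 : A) ∈ Nt F α i (θ 1) := by
  rw [map_one]
  exact (twl.1 F V V1 A α i).2.2.1

theorem I_mulL {c d : C} {a b : A} (ha : a ∈ Nt F α i (θ c)) (hb : b ∈ It F α i (θ d)) :
    a * b ∈ It F α i (θ (c * d)) := by
  have h1 : It F α i (θ d) ≤ (It F α i (θ (c * d))).comap (LinearMap.mulLeft F a) := by
    apply Submodule.span_le.2
    rintro x (⟨m, rfl⟩ | ⟨v, m, hm, rfl⟩)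
    · change a * Tr F α i (θ d) m ∈ It F α i (θ (c * d))
      have h := (twl.1 F V V1 A α i).2.2.2.2.2.1 (θ c) (θ d) a m ha
      rw [← map_mul, mul_comm d c] at h
      rw [h]
      exact Submodule.subset_span (Or.inl ⟨_, rfl⟩)
    · change a * (α (i v) * m - m) ∈ It F α i (θ (c * d))
      have h := ((twl.1 F V V1 A α i).1 (θ c) a).1 ha ((θ c)⁻¹ v)
      have h2 : (θ c) ((θ c)⁻¹ v) = v := by
        rw [← MulAut.mul_apply, mul_inv_cancel, MulAut.one_apply]
      rw [h2] at h
      have h3 : a * (α (i v) * m - m) = α (i ((θ c)⁻¹ v)) * (a * m) - a * m := by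
        rw [mul_sub, ← mul_assoc, ← h, mul_assoc]
      rw [h3]
      exact Submodule.subset_span (Or.inr ⟨_, _, N_mul twl α i θ ha hm, rfl⟩)
  exact h1 hb

theorem I_mulR {c d : C} {a b : A} (ha : a ∈ It F α i (θ c)) (hb : b ∈ Nt F α i (θ d)) :
    a * b ∈ It F α i (θ (c * d)) := by
  have h1 : It F α i (θ c) ≤ (It F α i (θ (c * d))).comap (LinearMap.mulRight F b) := by
    apply Submodule.span_le.2
    rintro x (⟨m, rfl⟩ | ⟨v, m, hm, rfl⟩)
    · change Tr F α i (θ c) m * b ∈ It F α i (θ (c * d))
      have h := (twl.1 F V V1 A α i).2.2.2.2.2.2 (θ c) (θ d) m b hb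
      rw [← map_mul, mul_comm d c] at h
      rw [h]
      exact Submodule.subset_span (Or.inl ⟨_, rfl⟩)
    · change (α (i v) * m - m) * b ∈ It F α i (θ (c * d))
      rw [sub_mul, mul_assoc]
      exact Submodule.subset_span (Or.inr ⟨_, _, N_mul twl α i θ hm hb, rfl⟩)
  exact h1 ha

/-- the subalgebra of the graded elements -/
def gsb : Subalgebra F (MonoidAlgebra A C) where
  carrier := {f | ∀ c, f.coeff c ∈ Nt F α i (θ c)}
  mul_mem' := by
    classical
    intro f g hf hg ε
    rw [MonoidAlgebra.coeff_mul]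
    refine Submodule.sum_mem _ fun x _ => Submodule.sum_mem _ fun y _ => ?_
    dsimp only
    split_ifs with h
    · rw [← h]
      exact N_mul twl α i θ (hf x) (hg y)
    · exact Submodule.zero_mem _
  one_mem' := by
    classical
    intro ε
    rw [MonoidAlgebra.one_def, MonoidAlgebra.coeff_single, Finsupp.single_apply]
    split_ifs with h
    · rw [← h]
      exact N_one twl α i θ
    · exact Submodule.zero_mem _
  add_mem' := by
    intro f g hf hg ε
    rw [MonoidAlgebra.coeff_add, Finsupp.add_apply]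
    exact Submodule.add_mem _ (hf ε) (hg ε)
  zero_mem' := by
    intro ε
    exact Submodule.zero_mem _
  algebraMap_mem' := by
    classical
    intro r ε
    rw [Algebra.algebraMap_eq_smul_one, MonoidAlgebra.coeff_smul, Finsupp.smul_apply,
      MonoidAlgebra.one_def, MonoidAlgebra.coeff_single, Finsupp.single_apply]
    refine Submodule.smul_mem _ _ ?_
    split_ifs with h
    · rw [← h]
      exact N_one twl α i θ
    · exact Submodule.zero_mem _

/-- the ideal of the elements with components in the kernels -/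
def gid : Ideal (gsb (F := F) twl α i θ) where
  carrier := {f | ∀ c, f.1.coeff c ∈ It F α i (θ c)}
  add_mem' := by
    intro f g hf hg ε
    change (f.1 + g.1).coeff ε ∈ _
    rw [MonoidAlgebra.coeff_add, Finsupp.add_apply]
    exact Submodule.add_mem _ (hf ε) (hg ε)
  zero_mem' := by
    intro ε
    exact Submodule.zero_mem _
  smul_mem' := by
    classical
    intro f g hg ε
    change (f.1 * g.1).coeff ε ∈ _
    rw [MonoidAlgebra.coeff_mul]
    refine Submodule.sum_mem _ fun x _ => Submodule.sum_mem _ fun y _ => ?_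
    dsimp only
    split_ifs with h
    · rw [← h]
      exact I_mulL twl α i θ (f.2 x) (hg y)
    · exact Submodule.zero_mem _

theorem gid_two : (gid (F := F) twl α i θ).IsTwoSided := by
  classical
  constructor
  intro f g hf ε
  change (f.1 * g.1).coeff ε ∈ _
  rw [MonoidAlgebra.coeff_mul]
  refine Submodule.sum_mem _ fun x _ => Submodule.sum_mem _ fun y _ => ?_
  dsimp only
  split_ifs with h
  · rw [← h]
    exact I_mulR twl α i θ (hf x) (g.2 y)
  · exact Submodule.zero_mem _

/-- the element `a` in degree `c` -/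
def gsi (c : C) : Nt F α i (θ c) →ₗ[F] gsb (F := F) twl α i θ where
  toFun := fun a => ⟨MonoidAlgebra.single c (a : A), by
    classical
    intro δ
    rw [MonoidAlgebra.coeff_single, Finsupp.single_apply]
    split_ifs with h
    · rw [← h]
      exact a.2
    · exact Submodule.zero_mem _⟩
  map_add' := by
    intro a b
    apply Subtype.ext
    exact MonoidAlgebra.single_add _ _ _
  map_smul' := by
    intro r a
    apply Subtype.ext
    exact (MonoidAlgebra.smul_single _ _ _).symm

theorem gsm (f : ∀ c : C, Nt F α i (θ c)) (δ : C) :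
    (∑ c, gsi twl α i θ c (f c)).1.coeff δ = f δ := by
  classical
  have h1 : (∑ c, gsi twl α i θ c (f c)).1 = ∑ c, MonoidAlgebra.single c (f c : A) := by
    rw [AddSubmonoidClass.coe_finsetSum]
    rfl
  rw [h1]
  have h2 : (∑ c, MonoidAlgebra.single c (f c : A)).coeff δ =
      ∑ c, (MonoidAlgebra.single c (f c : A)).coeff δ := by
    rw [MonoidAlgebra.coeff_sum, Finsupp.finsetSum_apply]
  rw [h2, Finset.sum_eq_single δ]
  · rw [MonoidAlgebra.coeff_single, Finsupp.single_eq_same]
  · intro ε _ h
    rw [MonoidAlgebra.coeff_single, Finsupp.single_apply, if_neg h]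
  · intro h
    exact (h (Finset.mem_univ δ)).elim

end

/-- SGX -/
theorem sgx (twl : PFE.S.TwlStmt) : BR.SgxStmt := by
  classical
  intro F V V1 C A _ _ _ _ _ _ _ _ α i θ
  have := gid_two (F := F) twl α i θ
  have hex : ∀ c : C, ∃ q : A →ₗ[F] (gsb (F := F) twl α i θ ⧸ gid (F := F) twl α i θ),
      q.comp (Nt F α i (θ c)).subtype =
        (Ideal.Quotient.mkₐ F (gid (F := F) twl α i θ)).toLinearMap.comp (gsi twl α i θ c) :=
    fun c => LinearMap.exists_extend _
  choose q hq using hex
  have key : ∀ (c : C) (a : A) (ha : a ∈ Nt F α i (θ c)),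
      q c a = Ideal.Quotient.mk (gid (F := F) twl α i θ) (gsi twl α i θ c ⟨a, ha⟩) := by
    intro c a ha
    have h := LinearMap.congr_fun (hq c) ⟨a, ha⟩
    exact h
  refine ⟨gsb (F := F) twl α i θ ⧸ gid (F := F) twl α i θ, inferInstance, inferInstance, q, ?_⟩
  refine
    { sur := ?_
      ker := ?_
      mul := ?_
      one := ?_ }
  · intro x
    obtain ⟨f, rfl⟩ := Ideal.Quotient.mk_surjective x
    refine ⟨fun c => f.1.coeff c, f.2, ?_⟩
    rw [Finset.sum_congr rfl (fun c _ => key c _ (f.2 c)), ← map_sum]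
    refine congrArg _ (Subtype.ext ?_)
    apply MonoidAlgebra.coeff_injective
    ext c
    rw [gsm twl α i θ (fun c => ⟨f.1.coeff c, f.2 c⟩)]
  · intro a ha
    rw [Finset.sum_congr rfl (fun c _ => key c _ (ha c)), ← map_sum,
      Ideal.Quotient.eq_zero_iff_mem]
    constructor
    · intro h c
      have h2 := h c
      rwa [gsm] at h2
    · intro h c
      rw [gsm]
      exact h c
  · intro c d a ha b hb
    rw [key c a ha, key d b hb, key (c * d) (a * b) (N_mul twl α i θ ha hb), ← map_mul]
    refine congrArg _ (Subtype.ext ?_)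
    change MonoidAlgebra.single (c * d) (a * b) =
      MonoidAlgebra.single c a * MonoidAlgebra.single d b
    rw [MonoidAlgebra.single_mul_single]
  · rw [key 1 1 (N_one twl α i θ)]
    exact map_one (Ideal.Quotient.mk (gid (F := F) twl α i θ))

end Pool.Agent.PSS.H86
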